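import Mathlib
import Pool.Agent.NH57.SobD.Defs
import Pool.Agent.NH57.SobD.Transfer

/-!
# MP_6a3a89, Q1: the Sobolev norm `p_2` of a `G`-continuous norm need not be `G`-continuous

`G = SL₂(ℝ) × SL₂(ℝ)`, `V` is the module of `K`-finite (trigonometric polynomial) functions on the
flag manifold `ℙ¹ × ℙ¹`, `p` is the supremum norm and `s = 2`.
-/

set_option autoImplicit false

namespace Pool.Agent.Results.MP_6a3a89_al.SobolevNotContinuous

open Pool.Agent.NH57 Pool.Agent.NH57.SobD

/-- **The negated form of Q1.** For `G = SL₂(ℝ) × SL₂(ℝ)` (with any normalisation `c > 0` of the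
invariant form on `𝔤`) there are a Harish-Chandra module `V`, a `G`-continuous norm `p` on `V` such
that for `s = 2 ≥ 0` the Sobolev norm `p_s = p ∘ D_s` is not `G`-continuous. -/
theorem result (c : ℝ) (hc : 0 < c) :
    ∃ (V : Type) (_ : AddCommGroup V) (_ : Module ℂ V) (M : HCModule V) (p : V → ℝ),
      IsNorm p ∧ GContinuous M p ∧
      ∃ D : V →ₗ[ℂ] V, IsDs M c 2 D ∧ ¬ GContinuous M (fun v => p (D v)) := by
  refine ⟨_, _, _, MD, fun v => ‖Sob.io v‖, ⟨?_, ?_, ?_⟩, gcont_MD, Sob.Dop c, ?_, ?_⟩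
  · intro v w
    show ‖Sob.io (v + w)‖ ≤ ‖Sob.io v‖ + ‖Sob.io w‖
    rw [map_add]
    exact norm_add_le _ _
  · intro a v
    show ‖Sob.io (a • v)‖ = ‖a‖ * ‖Sob.io v‖
    rw [map_smul, norm_smul]
  · intro v hv
    apply Sob.io_inj
    rw [map_zero]
    exact norm_eq_zero.mp hv
  · intro m n v hv
    rcases Sob.weight_form (weight_iff.mp hv) with rfl | ⟨j, l, rfl, rfl, a, rfl⟩
    · simp
    · rw [map_smul, Sob.Dop_e]
      have h2 : (2 : ℝ) / 2 = 1 := by norm_num
      rw [h2, Real.rpow_one, smul_comm]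
      congr 1
      push_cast
      ring
  · intro h
    exact Sob.not_bounded hc (Sob.bound_of_GContinuous hc (gcont_transfer h))

end Pool.Agent.Results.MP_6a3a89_al.SobolevNotContinuous
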